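import Pool.Agent.H27.G.R_seed8.Y333.VK.ZfA

/-!
Zero free region and bound for the inverse of the zeta function from the upper bound
(job 8117, helper333).
-/

set_option autoImplicit false

open Complex Filter Topology Set MeasureTheory Metric

namespace Pool.Agent.Y333.VK

/-- the logarithmic quantity -/
lemma lam_le {δ K A L : ℝ} (hδ0 : 0 < δ) (hK : 1 ≤ K) (hA : 1 ≤ A) (hL : 1 ≤ L)
    (hQ : 1 ≤ Real.log L) (h : Real.log (128 * A * K) + 1 ≤ 2 * Real.log L) :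
    Real.log (4 * K * L / (L ^ (δ - 1) / 32 / (A * Real.log L))) + 1 ≤ 5 * Real.log L := by
  have hL0 : 0 < L := by linarith
  have hQ0 : 0 < Real.log L := by linarith
  have hp : 0 < L ^ (δ - 1) := Real.rpow_pos_of_pos hL0 _
  have hK0 : 0 < K := by linarith
  have hA0 : 0 < A := by linarith
  have e : 4 * K * L / (L ^ (δ - 1) / 32 / (A * Real.log L)) =
      (128 * A * K) * L * Real.log L / L ^ (δ - 1) := by
    field_simp
    ring
  rw [e, Real.log_div (by positivity) (by positivity), Real.log_mul (by positivity) (by positivity),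
    Real.log_mul (by positivity) (by positivity), Real.log_rpow hL0]
  have h1 : Real.log (Real.log L) ≤ Real.log L :=
    (Real.log_le_sub_one_of_pos hQ0).trans (by linarith)
  nlinarith

/-- no zeros near the line -/
lemma zfree {δ K t₀ : ℝ} (hδ0 : 0 < δ) (hδ1 : δ < 1) (hK : 1 ≤ K) (ht₀ : 3 ≤ t₀)
    (h : UB δ K t₀) : ∃ C0 : ℝ, 0 < C0 ∧ ∀ ρ : ℂ, riemannZeta ρ = 0 → t₀ + 1 ≤ |ρ.im| →
      1 ≤ Real.log (Real.log |ρ.im|) →
      Real.log (128 * 602 * K) + 1 ≤ 2 * Real.log (Real.log |ρ.im|) →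
      C0 ≤ Real.log (Real.log |ρ.im|) →
      ρ.re ≤ 1 - ww δ ρ.im / (4214 * Real.log (Real.log |ρ.im|)) := by
  obtain ⟨K0, hK0, hD⟩ := Pool.Agent.W66.D_re
  have hell := Pool.Agent.W66.one_le_ell 0
  refine ⟨3 * (K0 * Pool.Agent.W66.ell 0), by positivity, ?_⟩
  intro ρ hρ ht hQ1 hQ2 hQ3
  have hL1 : 1 ≤ Real.log |ρ.im| := one_le_log (by linarith)
  obtain ⟨hw0, hw1⟩ := ww_pos hδ1 (by linarith : 3 ≤ |ρ.im|)
  generalize ht' : ρ.im = t at *
  have hlam := lam_le (A := 602) hδ0 hK (by norm_num) hL1 hQ1 hQ2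
  have hww : Real.log |t| ^ (δ - 1) / 32 = ww δ t := rfl
  rw [hww] at hlam
  clear hww
  have hloc := fun (τ : ℝ) (η : ℝ) => @loc δ K t₀ hδ0 hδ1 hK ht₀ h t τ η ht
  generalize ww δ t = w at *
  generalize hQQ : Real.log (Real.log |t|) = Q at *
  generalize hLL : Real.log |t| = L at *
  set η : ℝ := w / (602 * Q) with hη
  have hQ0 : 0 < Q := by linarith
  have hη0 : 0 < η := by positivity
  have hηw : η ≤ w := div_le_self hw0.le (by linarith)
  by_cases hre : ρ.re < 1 - w / 2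
  · have h1 : w / (4214 * Q) ≤ w / 2 := div_le_div_of_nonneg_left hw0.le (by norm_num) (by linarith)
    linarith
  push Not at hre
  have hre1 : ρ.re < 1 := by
    by_contra hcon
    exact riemannZeta_ne_zero_of_one_le_re (not_lt.1 hcon) hρ
  have h341 := Pool.Agent.W66.three_four_one (σ := 1 + η) (by linarith) t
  have hcr : ∀ v : ℝ, 1 < (⟨1 + η, v⟩ : ℂ).re := fun v => by
    show 1 < 1 + η
    linarith
  rw [Pool.Agent.W66.LSeries_eq_DD (hcr 0),
    ArithmeticFunction.LSeries_vonMangoldt_eq_deriv_riemannZeta_div (hcr t),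
    ArithmeticFunction.LSeries_vonMangoldt_eq_deriv_riemannZeta_div (hcr (2 * t)),
    sub_re, neg_div, neg_div, neg_re, neg_re] at h341
  have d0 := (hD 0 (1 + η) (by linarith) (by linarith)).1
  change _ ≤ (Pool.Agent.W66.DD _).re at d0
  have hball : ρ ∈ closedBall (⟨1 + η, t⟩ : ℂ) (2 * w) := by
    rw [mem_closedBall, dist_eq_norm]
    have e : ρ - ⟨1 + η, t⟩ = ((ρ.re - (1 + η) : ℝ) : ℂ) := by
      apply Complex.ext <;> simp [ht']
    rw [e, Complex.norm_real, Real.norm_eq_abs, abs_le]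
    constructor <;> linarith
  have d1 := (hloc t η le_rfl (by linarith [abs_nonneg t]) hη0 hηw).2.1 ρ hball hρ
  have h2t : |2 * t| = 2 * |t| := by rw [abs_mul]; norm_num
  have d2 := (hloc (2 * t) η (by rw [h2t]; linarith [abs_nonneg t]) h2t.le hη0 hηw).1
  have e0 : (1 / ((⟨1 + η, 0⟩ : ℂ) - 1)).re = 1 / η := by
    have e : (⟨1 + η, 0⟩ : ℂ) - 1 = ((η : ℝ) : ℂ) := by
      apply Complex.ext <;> simp
    rw [e, ← Complex.ofReal_one, ← Complex.ofReal_div, Complex.ofReal_re]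
  have e1 : (1 / ((⟨1 + η, t⟩ : ℂ) - ρ)).re = 1 / (1 + η - ρ.re) := by
    have e : (⟨1 + η, t⟩ : ℂ) - ρ = ((1 + η - ρ.re : ℝ) : ℂ) := by
      apply Complex.ext <;> simp [ht']
    rw [e, ← Complex.ofReal_one, ← Complex.ofReal_div, Complex.ofReal_re]
  rw [e1] at d1
  rw [e0] at h341
  have hE : 12 * (Real.log (4 * K * L / η) + 1) / w ≤ 60 * (Q / w) := by
    calc 12 * (Real.log (4 * K * L / η) + 1) / w ≤ 12 * (5 * Q) / w := by gcongr
      _ = 60 * (Q / w) := by ring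
  have h3η : 1 / η = 602 * (Q / w) := by
    rw [hη]
    field_simp
  have hQw : Q ≤ Q / w := by
    rw [le_div_iff₀ hw0]
    nlinarith
  have hD0 : 0 < 1 + η - ρ.re := by linarith
  have hm : 4 * (1 / (1 + η - ρ.re)) ≤ 2107 * (Q / w) := by
    linarith
  have hm2 : 4 ≤ 2107 * (Q / w) * (1 + η - ρ.re) := by
    have h1 : 4 * (1 / (1 + η - ρ.re)) = 4 / (1 + η - ρ.re) := by ring
    rw [h1, div_le_iff₀ hD0] at hm
    exact hm
  have hm3 : 4 / 2107 * (w / Q) ≤ 1 + η - ρ.re := by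
    have h1 : 2107 * (Q / w) * (4 / 2107 * (w / Q)) = 4 := by
      field_simp
    have h2 : 0 < 2107 * (Q / w) := by positivity
    by_contra hcon
    push Not at hcon
    have := mul_lt_mul_of_pos_left hcon h2
    linarith
  have e3 : η = 1 / 602 * (w / Q) := by
    rw [hη]
    field_simp
  have e4 : w / (4214 * Q) = 1 / 4214 * (w / Q) := by
    field_simp
  rw [e4]
  have hwQ : 0 < w / Q := by positivity
  linarith

/-- growth along a horizontal segment -/
lemma grow {σ x1 t G : ℝ} (hσ : σ ≤ x1) (ht : t ≠ 0)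
    (h : ∀ x ∈ Icc σ x1, riemannZeta ⟨x, t⟩ ≠ 0 ∧
      ‖deriv riemannZeta ⟨x, t⟩ / riemannZeta ⟨x, t⟩‖ ≤ G) :
    ‖riemannZeta ⟨x1, t⟩‖ ≤ ‖riemannZeta ⟨σ, t⟩‖ * Real.exp (G * (x1 - σ)) := by
  have hd : ∀ x : ℝ, HasDerivAt (fun x : ℝ => riemannZeta ⟨x, t⟩) (deriv riemannZeta ⟨x, t⟩) x := by
    intro x
    have hne : (⟨x, t⟩ : ℂ) ≠ 1 := by
      intro he
      apply ht
      have := congrArg Complex.im he
      simpa using this
    have h1 := (differentiableAt_riemannZeta hne).hasDerivAt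
    have h2 : HasDerivAt (fun x : ℝ => (⟨x, t⟩ : ℂ)) 1 x := by
      have h3 : (fun x : ℝ => (⟨x, t⟩ : ℂ)) = fun x : ℝ => (x : ℂ) + t * I := by
        ext x
        apply Complex.ext <;> simp
      rw [h3]
      exact (HasDerivAt.ofReal_comp (hasDerivAt_id x)).add_const _
    have h3 := HasDerivAt.comp x h1 h2
    rw [mul_one] at h3
    exact h3
  have hg := norm_le_gronwallBound_of_norm_deriv_right_le (f := fun x : ℝ => riemannZeta ⟨x, t⟩)
    (f' := fun x => deriv riemannZeta ⟨x, t⟩) (δ := ‖riemannZeta ⟨σ, t⟩‖) (K := G) (ε := 0)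
    (a := σ) (b := x1) (fun x _ => (hd x).continuousAt.continuousWithinAt)
    (fun x _ => (hd x).hasDerivWithinAt) le_rfl (fun x hx => by
      obtain ⟨h1, h2⟩ := h x ⟨hx.1, hx.2.le⟩
      have h3 : deriv riemannZeta ⟨x, t⟩ =
          deriv riemannZeta ⟨x, t⟩ / riemannZeta ⟨x, t⟩ * riemannZeta ⟨x, t⟩ := by
        field_simp
      rw [add_zero, h3, norm_mul]
      exact mul_le_mul_of_nonneg_right h2 (norm_nonneg _)) x1 ⟨hσ, le_rfl⟩
  rwa [gronwallBound_ε0] at hg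

/-- bound at one height -/
lemma bd {δ K t₀ t : ℝ} (hδ0 : 0 < δ) (hδ1 : δ < 1) (hK : 1 ≤ K) (ht₀ : 3 ≤ t₀)
    (h : UB δ K t₀) (ht : t₀ + 1 ≤ |t|) (hL : 1280000 ≤ Real.log |t|)
    (hQ1 : 1 ≤ Real.log (Real.log |t|))
    (hQ2 : Real.log (128 * 20000 * K) + 1 ≤ 2 * Real.log (Real.log |t|))
    (hz : ∀ ρ : ℂ, riemannZeta ρ = 0 → |ρ.im - t| ≤ 1 →
      ρ.re ≤ 1 - ww δ t / (20000 * Real.log (Real.log |t|))) {σ : ℝ}
    (hσ : 1 - ww δ t / (20000 * Real.log (Real.log |t|)) / 2 ≤ σ) :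
    riemannZeta ⟨σ, t⟩ ≠ 0 ∧ ‖(riemannZeta ⟨σ, t⟩)⁻¹‖ ≤ (Real.log |t|) ^ (27 : ℕ) := by
  have hL1 : 1 ≤ Real.log |t| := by linarith
  obtain ⟨hw0, hw1⟩ := ww_pos hδ1 (by linarith : 3 ≤ |t|)
  have hlam := lam_le (A := 20000) hδ0 hK (by norm_num) hL1 hQ1 hQ2
  have hww : Real.log |t| ^ (δ - 1) / 32 = ww δ t := rfl
  rw [hww] at hlam
  have hwL : 1 / (32 * Real.log |t|) ≤ ww δ t := by
    have h1 : Real.log |t| ^ (-1 : ℝ) ≤ Real.log |t| ^ (δ - 1) :=
      Real.rpow_le_rpow_of_exponent_le hL1 (by linarith)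
    rw [Real.rpow_neg_one] at h1
    have h2 : 1 / (32 * Real.log |t|) = (Real.log |t|)⁻¹ / 32 := by
      field_simp
    rw [h2, ← hww]
    linarith
  clear hww
  have hloc := fun (η : ℝ) => @loc δ K t₀ hδ0 hδ1 hK ht₀ h t t η ht le_rfl
    (by linarith [abs_nonneg t])
  have ht0 : t ≠ 0 := by
    intro h0
    rw [h0, abs_zero] at ht
    linarith
  have hQL : Real.log (Real.log |t|) ≤ Real.log |t| :=
    (Real.log_le_sub_one_of_pos (by linarith)).trans (by linarith)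
  have hexp : Real.exp (Real.log (Real.log |t|)) = Real.log |t| := Real.exp_log (by linarith)
  generalize ww δ t = w at *
  generalize hQQ : Real.log (Real.log |t|) = Q at *
  generalize hLL : Real.log |t| = L at *
  have hQ0 : 0 < Q := by linarith
  have hL0 : 0 < L := by linarith
  set w1 : ℝ := w / (20000 * Q) with hw1def
  have hw10 : 0 < w1 := by positivity
  have hw1w : w1 ≤ w / 20000 := by
    rw [hw1def]
    exact div_le_div_of_nonneg_left hw0.le (by norm_num) (by linarith)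
  have hinv1 : 2 / w1 ≤ L ^ (3 : ℕ) := by
    have h1 : 2 / w1 = 40000 * Q / w := by
      rw [hw1def]
      field_simp
      norm_num
    rw [h1, div_le_iff₀ hw0]
    have h2 : 1 ≤ 32 * L * w := by
      rw [div_le_iff₀ (by positivity)] at hwL
      linarith
    have h3 : 40000 * Q ≤ 40000 * L * (32 * L * w) := by
      have h4 : 40000 * Q ≤ 40000 * L := by linarith
      have h5 : 40000 * L * 1 ≤ 40000 * L * (32 * L * w) :=
        mul_le_mul_of_nonneg_left h2 (by positivity)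
      linarith
    have h4 : 40000 * L * (32 * L * w) = 1280000 * (L ^ 2 * w) := by ring
    have h5 : 1280000 * (L ^ 2 * w) ≤ L * (L ^ 2 * w) :=
      mul_le_mul_of_nonneg_right hL (by positivity)
    have h6 : L * (L ^ 2 * w) = L ^ 3 * w := by ring
    linarith
  have hright : ∀ x : ℝ, 1 + w1 ≤ x → riemannZeta ⟨x, t⟩ ≠ 0 ∧
      ‖(riemannZeta ⟨x, t⟩)⁻¹‖ ≤ L ^ (3 : ℕ) := by
    intro x hx
    have h1 : 1 < (⟨x, t⟩ : ℂ).re := by
      show 1 < x
      linarith
    refine ⟨riemannZeta_ne_zero_of_one_lt_re h1, (inv_le h1).trans (le_trans ?_ hinv1)⟩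
    show 1 + 1 / (x - 1) ≤ 2 / w1
    have h2 : 1 / (x - 1) ≤ 1 / w1 := one_div_le_one_div_of_le hw10 (by linarith)
    have h3 : 1 ≤ 1 / w1 := by
      rw [le_div_iff₀ hw10]
      linarith
    have h4 : 2 / w1 = 1 / w1 + 1 / w1 := by ring
    linarith
  rcases le_or_gt (1 + w1) σ with hc | hc
  · obtain ⟨h1, h2⟩ := hright σ hc
    exact ⟨h1, h2.trans (pow_le_pow_right₀ hL1 (by norm_num))⟩
  have hseg : ∀ x ∈ Icc σ (1 + w1), riemannZeta ⟨x, t⟩ ≠ 0 ∧
      ‖deriv riemannZeta ⟨x, t⟩ / riemannZeta ⟨x, t⟩‖ ≤ 16 * Q / w1 := by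
    intro x hx
    obtain ⟨h1, h2⟩ := (hloc w1 hw10 (by linarith)).2.2 ⟨x, t⟩ (by
      rw [mem_closedBall, dist_eq_norm]
      have e : (⟨x, t⟩ : ℂ) - ⟨1 + w1, t⟩ = ((x - (1 + w1) : ℝ) : ℂ) := by
        apply Complex.ext <;> simp
      rw [e, Complex.norm_real, Real.norm_eq_abs, abs_le]
      constructor <;> linarith [hx.1, hx.2]) (w1 / 2) (by linarith) (by
      intro ρ hρ hρ0
      rw [mem_closedBall, dist_eq_norm] at hρ
      have h2 := (abs_im_le_norm (ρ - ⟨1 + w1, t⟩)).trans hρ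
      rw [sub_im] at h2
      have h3 := hz ρ hρ0 (h2.trans (by linarith))
      have h4 := (le_abs_self _).trans (abs_re_le_norm ((⟨x, t⟩ : ℂ) - ρ))
      rw [sub_re] at h4
      have h5 : (⟨x, t⟩ : ℂ).re = x := rfl
      rw [h5] at h4
      linarith [hx.1])
    refine ⟨h1, h2.trans ?_⟩
    have e1 : Real.log (4 * K * L / w1) * (3 / 2) / (w1 / 2) ≤ 15 * Q / w1 := by
      have h3 : Real.log (4 * K * L / w1) ≤ 5 * Q := by linarith
      calc Real.log (4 * K * L / w1) * (3 / 2) / (w1 / 2) ≤ 5 * Q * (3 / 2) / (w1 / 2) := by gcongr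
        _ = 15 * Q / w1 := by
          field_simp
          norm_num
    have e2 : 12 * (Real.log (4 * K * L / w1) + 1) / w ≤ Q / w1 := by
      calc 12 * (Real.log (4 * K * L / w1) + 1) / w ≤ 12 * (5 * Q) / w := by gcongr
        _ ≤ 12 * (5 * Q) / (20000 * w1) := by
          apply div_le_div_of_nonneg_left (by positivity) (by positivity)
          linarith
        _ = 60 / 20000 * (Q / w1) := by
          field_simp
          norm_num
        _ ≤ Q / w1 := by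
          have : 0 < Q / w1 := by positivity
          linarith
    have e3 : 16 * Q / w1 = 15 * Q / w1 + Q / w1 := by ring
    rw [e3]
    exact add_le_add e1 e2
  have hg := grow hc.le ht0 hseg
  obtain ⟨k1, k2⟩ := hright (1 + w1) le_rfl
  have k3 := (hseg σ ⟨le_rfl, hc.le⟩).1
  refine ⟨k3, ?_⟩
  have hexp2 : Real.exp (16 * Q / w1 * (1 + w1 - σ)) ≤ L ^ (24 : ℕ) := by
    rw [← hexp, ← Real.exp_nat_mul]
    apply Real.exp_le_exp.2
    have h1 : 16 * Q / w1 * (1 + w1 - σ) ≤ 16 * Q / w1 * (3 / 2 * w1) :=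
      mul_le_mul_of_nonneg_left (by linarith) (by positivity)
    have h2 : 16 * Q / w1 * (3 / 2 * w1) = 24 * Q := by
      field_simp
      norm_num
    push_cast
    linarith
  have k4 : 0 < ‖riemannZeta ⟨σ, t⟩‖ := norm_pos_iff.2 k3
  have k5 : 0 < ‖riemannZeta ⟨1 + w1, t⟩‖ := norm_pos_iff.2 k1
  have k6 : ‖riemannZeta ⟨1 + w1, t⟩‖ ≤ ‖riemannZeta ⟨σ, t⟩‖ * L ^ (24 : ℕ) :=
    hg.trans (mul_le_mul_of_nonneg_left hexp2 (norm_nonneg _))
  rw [norm_inv] at k2 ⊢
  have k7 : ‖riemannZeta ⟨σ, t⟩‖⁻¹ ≤ L ^ (24 : ℕ) * ‖riemannZeta ⟨1 + w1, t⟩‖⁻¹ := by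
    rw [inv_eq_one_div, div_le_iff₀ k4]
    have h1 : L ^ (24 : ℕ) * ‖riemannZeta ⟨1 + w1, t⟩‖⁻¹ * ‖riemannZeta ⟨σ, t⟩‖ =
        (‖riemannZeta ⟨σ, t⟩‖ * L ^ (24 : ℕ)) / ‖riemannZeta ⟨1 + w1, t⟩‖ := by
      ring
    rw [h1, le_div_iff₀ k5, one_mul]
    exact k6
  refine k7.trans ?_
  calc L ^ (24 : ℕ) * ‖riemannZeta ⟨1 + w1, t⟩‖⁻¹ ≤ L ^ (24 : ℕ) * L ^ (3 : ℕ) :=
        mul_le_mul_of_nonneg_left k2 (by positivity)
    _ = L ^ (27 : ℕ) := by rw [← pow_add]

/-- (11) zero free region and bound for the inverse -/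
theorem zf (h : Pool.Agent.Y957.VK.S_ZETA) : Pool.Agent.Y957.VK.S_ZF := by
  obtain ⟨δ, K, t₀, hδ0, hδ1, hK, ht₀, h⟩ := h
  have h : UB δ K t₀ := h
  obtain ⟨C0, hC0, hzf⟩ := zfree hδ0 hδ1 hK ht₀ h
  have hlt : Tendsto Real.log atTop atTop := Real.tendsto_log_atTop
  have hlo : ∀ᶠ L : ℝ in atTop, 1280000 * Real.log L ≤ L ^ (δ / 2) := by
    have h1 := (isLittleO_log_rpow_atTop (half_pos hδ0)).bound
      (show (0 : ℝ) < 1 / 1280000 by norm_num)
    filter_upwards [h1, eventually_ge_atTop 1] with L h2 h3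
    rw [Real.norm_of_nonneg (Real.log_nonneg h3),
      Real.norm_of_nonneg (Real.rpow_nonneg (by linarith) _)] at h2
    linarith
  have hev : ∀ᶠ L : ℝ in atTop, 1280000 ≤ L ∧ 1 ≤ Real.log L ∧
      Real.log (128 * 20000 * K) + 1 ≤ 2 * Real.log L ∧ C0 ≤ Real.log L ∧
      1280000 * Real.log L ≤ L ^ (δ / 2) := by
    filter_upwards [eventually_ge_atTop 1280000, hlt.eventually_ge_atTop 1,
      hlt.eventually_ge_atTop ((Real.log (128 * 20000 * K) + 1) / 2), hlt.eventually_ge_atTop C0,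
      hlo] with L h1 h2 h3 h4 h5
    refine ⟨h1, h2, ?_, h4, h5⟩
    rw [mul_comm (2 : ℝ) (Real.log L)]
    exact (div_le_iff₀ (by norm_num)).1 h3
  obtain ⟨L0, hL0⟩ := eventually_atTop.1 hev
  set t₁ : ℝ := max (t₀ + 1) (Real.exp L0) with ht₁
  have ht₁a : t₀ + 1 ≤ t₁ := le_max_left _ _
  have ht₁b : ∀ v : ℝ, t₁ ≤ |v| → L0 ≤ Real.log |v| := by
    intro v hv
    have h1 : Real.exp L0 ≤ |v| := (le_max_right _ _).trans hv
    rw [Real.le_log_iff_exp_le ((Real.exp_pos _).trans_le h1)]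
    exact h1
  refine ⟨δ / 2, 27, t₁ + 1, by linarith, by linarith, by norm_num, by linarith, ?_⟩
  intro σ t ht hσ _
  obtain ⟨h1, h2, h3, h4, h5⟩ := hL0 _ (ht₁b t (by linarith))
  have hz : ∀ ρ : ℂ, riemannZeta ρ = 0 → |ρ.im - t| ≤ 1 →
      ρ.re ≤ 1 - ww δ t / (20000 * Real.log (Real.log |t|)) := by
    intro ρ hρ hρt
    have a1 : |t| - |ρ.im| ≤ |ρ.im - t| := by
      rw [abs_sub_comm]
      exact abs_sub_abs_le_abs_sub _ _
    have a2 : |ρ.im| - |t| ≤ |ρ.im - t| := abs_sub_abs_le_abs_sub _ _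
    obtain ⟨g1, g2, g3, g4, g5⟩ := hL0 _ (ht₁b ρ.im (by linarith))
    have hK0 : 0 < K := by linarith
    have g6 : Real.log (128 * 602 * K) ≤ Real.log (128 * 20000 * K) :=
      Real.log_le_log (by positivity) (by nlinarith)
    have g7 := hzf ρ hρ (by linarith) g2 (by linarith) g4
    refine g7.trans ?_
    obtain ⟨n1, n2⟩ := log_near hδ0 hδ1 (by linarith : 3 ≤ |t|) (by linarith : 3 ≤ |ρ.im|)
      (by linarith [abs_nonneg t])
    have n3 : ww δ t / 2 ≤ ww δ ρ.im := by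
      unfold ww
      linarith
    have n4 : Real.log (Real.log |ρ.im|) ≤ 2 * Real.log (Real.log |t|) := by
      have m1 : Real.log (Real.log |ρ.im|) ≤ Real.log (2 * Real.log |t|) :=
        Real.log_le_log (by linarith) n1
      rw [Real.log_mul (by norm_num) (by linarith)] at m1
      have m2 := Real.log_two_lt_d9
      linarith
    obtain ⟨p1, p2⟩ := ww_pos hδ1 (by linarith : 3 ≤ |t|)
    have n5 : ww δ t / (20000 * Real.log (Real.log |t|)) ≤
        ww δ ρ.im / (4214 * Real.log (Real.log |ρ.im|)) := by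
      calc ww δ t / (20000 * Real.log (Real.log |t|)) ≤
          ww δ t / (2 * (4214 * (2 * Real.log (Real.log |t|)))) := by
            apply div_le_div_of_nonneg_left p1.le (by positivity) (by linarith)
        _ = (ww δ t / 2) / (4214 * (2 * Real.log (Real.log |t|))) := by
            rw [div_div]
        _ ≤ ww δ ρ.im / (4214 * Real.log (Real.log |ρ.im|)) := by
            apply div_le_div₀ (by linarith) n3 (by linarith) (by linarith)
    linarith
  have hσ2 : 1 - ww δ t / (20000 * Real.log (Real.log |t|)) / 2 ≤ σ := by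
    have q1 : Real.log |t| ^ (δ / 2 - 1) ≤ ww δ t / (20000 * Real.log (Real.log |t|)) / 2 := by
      have q2 : ww δ t / (20000 * Real.log (Real.log |t|)) / 2 =
          Real.log |t| ^ (δ - 1) / (1280000 * Real.log (Real.log |t|)) := by
        unfold ww
        field_simp
        norm_num
      rw [q2, le_div_iff₀ (by linarith)]
      have q3 : Real.log |t| ^ (δ - 1) = Real.log |t| ^ (δ / 2 - 1) * Real.log |t| ^ (δ / 2) := by
        rw [← Real.rpow_add (by linarith)]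
        congr 1
        ring
      rw [q3]
      exact mul_le_mul_of_nonneg_left h5 (Real.rpow_nonneg (by linarith) _)
    linarith
  obtain ⟨r1, r2⟩ := bd hδ0 hδ1 hK ht₀ h (by linarith) h1 h2 h3 hz hσ2
  refine ⟨r1, r2.trans (le_of_eq ?_)⟩
  have r3 : (27 : ℝ) = ((27 : ℕ) : ℝ) := by norm_num
  rw [r3, Real.rpow_natCast]

end Pool.Agent.Y333.VK
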